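import Mathlib
import Pool.Agent.K9h30.KN.F1
import Pool.Agent.K9h30.KN.F2
import Pool.Agent.K9h30.KN.F3

/-!
# Knotted varieties of involutive commutative residuated lattices whose `ℓ`-bimonoidal subreducts form
# a variety

The definitions are in `Pool.Agent.K9h30.KN.Defs`:

* `InCRL C`: `C` is an involutive commutative residuated lattice; `neg x = x → 0` is its negation and
  `plus x y = ¬ (¬ x * ¬ y)`;
* `Sig A`: an algebra `(A, ∧, ∨, ·, +, 1, 0)`, without any axioms; `IsHom`: homomorphisms of such
  algebras; `reduct C`: the `ℓ`-bimonoidal reduct of `C`;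
* `Knotted m n C`: `x ^ m ≤ x ^ n` for all `x` in `C`;
* `IsSubreduct m n A S`: the algebra `(A, S)` can be embedded into `reduct C` for some `C` with
  `Knotted m n C`;
* `FormsVariety K`: the class `K` of algebras is closed under homomorphic images, (isomorphic copies of)
  subalgebras and direct products.

The theorem gives a positive answer to the question: if the class of the `ℓ`-bimonoidal subreducts of
the knotted variety `x ^ m ≤ x ^ n`, where `m, n ≥ 1`, forms a variety, then the knotted variety is
axiomatized by an inequality `x ≤ x ^ k`. Indeed `m = 1` or `m = n`. In all other cases there is a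
finite subreduct with a homomorphic image which is not a subreduct.

## The proof

Let `C` be an involutive commutative residuated lattice with `x ^ m ≤ x ^ n`. Applied to a join of
elements `a i * ¬ (b i)` this inequality gives a quasi-inequality in the language of the reduct: if
`(∏ a (N k)) * d ≤ (∑ b (N k)) + c` for all the multisets `N` of `n` of the indices `1, …, m`, then
`(∏ a i) * d ≤ (∑ b i) + c` (a special case is `Pool.Agent.K9h30.KN.not_subreduct`). Conversely every
commutative `ℓ`-bimonoid `A` with these quasi-inequalities is a subreduct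
(`Pool.Agent.K9h30.KN.subreduct_of_q`): the pairs `(a, b)` of elements of `A` with the product
`(a a', b + b')` and the set of the pairs with `a ≤ b` are a phase space, and `A` embeds into the lattice
of its closed sets. So it is enough to find finite `ℓ`-bimonoids with the quasi-inequalities which have
homomorphic images without them.

* For `m > n ≥ 2` (`Pool.Agent.K9h30.KN.E2`): the chain `1 > t > … > t ^ n > s > t s > … > t ^ n s > 0`
  with `x + y = x y`, `t ^ (n + 1) = t ^ n`, `s ^ 2 = 0`. In the quotient `0` and `t ^ n s` are
  identified.
* For `n > m ≥ 2` (`Pool.Agent.K9h30.KN.E3`): a chain with `3 m + 2` elements, in which the element `0`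
  of the Łukasiewicz chain with `m + 1` elements is replaced by a chain of `m + 2` elements, and the
  element next to it by a chain of `m + 1` elements. In the quotient the two largest elements of the
  first chain are identified.
* For `m > n = 1` (`Pool.Agent.K9h30.KN.F1`): an algebra with `21` elements, given by tables. It was
  found with a computer: first a lattice with `10` elements with one join preserving and two meet
  preserving operators, then the algebra which it generates in the closed sets of a phase space. In
  the quotient two elements are identified.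
-/

set_option autoImplicit false

namespace Pool.Agent.Results.MP_2e5387_al.KnottedSubreducts

open Pool.Agent.K9h30.KN

/-- In all the cases except `m = 1` and `m = n` a finite subreduct has a homomorphic image which is not
a subreduct. -/
theorem not_closed {m n : ℕ} (hm : 2 ≤ m) (hn : 1 ≤ n) (hmn : m ≠ n) :
    ∃ (A B : Type) (_ : Finite A) (S : Sig A) (T : Sig B) (f : A → B),
      IsSubreduct m n A S ∧ IsHom S T f ∧ Function.Surjective f ∧ ¬ IsSubreduct m n B T := by
  rcases Nat.lt_or_ge n 2 with h1 | h1
  · obtain rfl : n = 1 := by omega
    exact ⟨F1.T, F1.B, inferInstanceAs (Finite (Fin 21)), _, _, F1.pi, F1.subreduct (by omega),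
      F1.pi_hom, F1.pi_surj, F1.not_sub hm⟩
  · rcases Nat.lt_or_ge n m with h2 | h2
    · have hfin : Finite (E2 n) := by
        have : Function.Injective (fun x : E2 n =>
            ((⟨x.lev, Nat.lt_succ_of_le x.hl⟩, ⟨x.ex, Nat.lt_succ_of_le x.he⟩) :
              Fin 3 × Fin (n + 1))) := by
          intro x y h
          have h3 := Prod.mk.inj h
          exact E2.ext (Fin.mk.inj h3.1) (Fin.mk.inj h3.2)
        exact Finite.of_injective _ this
      exact ⟨E2 n, B2 n, hfin, _, _, B2.pi, E2.subreduct h1 h2.le, B2.pi_hom, B2.pi_surj,
        B2.not_sub h1 h2⟩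
    · obtain ⟨p, rfl⟩ : ∃ p, m = p + 2 := ⟨m - 2, by omega⟩
      have hfin : Finite (E3 p) := by
        have : Function.Injective (fun x : E3 p =>
            ((⟨x.lev, Nat.lt_succ_of_le x.hl⟩, ⟨x.ex, Nat.lt_succ_of_le x.h0⟩) :
              Fin (p + 3) × Fin (p + 4))) := by
          intro x y h
          have h3 := Prod.mk.inj h
          exact E3.ext (Fin.mk.inj h3.1) (Fin.mk.inj h3.2)
        exact Finite.of_injective _ this
      exact ⟨E3 p, B3 p, hfin, _, _, B3.pi, E3.subreduct h2, B3.pi_hom, B3.pi_surj,
        B3.not_sub (by omega)⟩

/-- **Theorem.** Let `m, n ≥ 1`. If the `ℓ`-bimonoidal subreducts of the knotted variety given by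
`x ^ m ≤ x ^ n` form a variety, then the knotted variety is axiomatized by an inequality of the form
`x ≤ x ^ k` or `1 ≤ x ^ k`. More precisely, if `m ≥ 2` and `m ≠ n`, then there is a finite subreduct with
a homomorphic image which is not a subreduct (and if `m = 1` or `m = n`, then the inequality
`x ^ m ≤ x ^ n` itself is of the form `x ≤ x ^ k`, or equivalent to `x ≤ x ^ 1`). -/
theorem result (m n : ℕ) (hm : 1 ≤ m) (hn : 1 ≤ n) :
    (FormsVariety (IsSubreduct m n) → ∃ k : ℕ, 1 ≤ k ∧
      ((∀ (C : Type) [InCRL C], Knotted m n C ↔ ∀ x : C, x ≤ x ^ k) ∨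
        (∀ (C : Type) [InCRL C], Knotted m n C ↔ ∀ x : C, 1 ≤ x ^ k))) ∧
    (2 ≤ m → m ≠ n → ∃ (A B : Type) (_ : Finite A) (S : Sig A) (T : Sig B) (f : A → B),
      IsSubreduct m n A S ∧ IsHom S T f ∧ Function.Surjective f ∧ ¬ IsSubreduct m n B T) := by
  refine ⟨fun hv => ?_, fun h1 h2 => not_closed h1 hn h2⟩
  rcases Nat.lt_or_ge m 2 with h1 | h1
  · obtain rfl : m = 1 := by omega
    refine ⟨n, hn, Or.inl fun C _ => ?_⟩
    unfold Knotted
    simp only [pow_one]
  · by_cases h2 : m = n
    · subst h2
      refine ⟨1, le_rfl, Or.inl fun C _ => ?_⟩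
      unfold Knotted
      simp
    · obtain ⟨A, B, _, S, T, f, hA, hf, hs, hB⟩ := not_closed h1 hn h2
      exact absurd (hv.hom A B S T f hA hf hs) hB

end Pool.Agent.Results.MP_2e5387_al.KnottedSubreducts
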